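import Mathlib

set_option autoImplicit false

namespace Pool.Agent.MP_3838e6_co

open Polynomial

/-- Two by two matrices of determinant one. -/
@[ext] structure S2 (R : Type) [CommRing R] where
  a : R
  b : R
  c : R
  d : R
  det : a * d - b * c = 1

namespace S2

variable {R S : Type} [CommRing R] [CommRing S]

instance : Mul (S2 R) := ⟨fun x y =>
  ⟨x.a * y.a + x.b * y.c, x.a * y.b + x.b * y.d, x.c * y.a + x.d * y.c, x.c * y.b + x.d * y.d, by
    have h1 := x.det
    have h2 := y.det
    linear_combination (y.a * y.d - y.b * y.c) * h1 + h2⟩⟩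

instance : One (S2 R) := ⟨⟨1, 0, 0, 1, by ring⟩⟩

instance : Inv (S2 R) := ⟨fun x => ⟨x.d, -x.b, -x.c, x.a, by
  have h1 := x.det
  linear_combination h1⟩⟩

@[simp] lemma mul_a (x y : S2 R) : (x * y).a = x.a * y.a + x.b * y.c := rfl
@[simp] lemma mul_b (x y : S2 R) : (x * y).b = x.a * y.b + x.b * y.d := rfl
@[simp] lemma mul_c (x y : S2 R) : (x * y).c = x.c * y.a + x.d * y.c := rfl
@[simp] lemma mul_d (x y : S2 R) : (x * y).d = x.c * y.b + x.d * y.d := rfl
@[simp] lemma one_a : (1 : S2 R).a = 1 := rfl
@[simp] lemma one_b : (1 : S2 R).b = 0 := rfl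
@[simp] lemma one_c : (1 : S2 R).c = 0 := rfl
@[simp] lemma one_d : (1 : S2 R).d = 1 := rfl
@[simp] lemma inv_a (x : S2 R) : (x⁻¹).a = x.d := rfl
@[simp] lemma inv_b (x : S2 R) : (x⁻¹).b = -x.b := rfl
@[simp] lemma inv_c (x : S2 R) : (x⁻¹).c = -x.c := rfl
@[simp] lemma inv_d (x : S2 R) : (x⁻¹).d = x.a := rfl

instance : Group (S2 R) := Group.ofLeftAxioms
  (fun x y z => by ext <;> simp <;> ring)
  (fun x => by ext <;> simp)
  (fun x => by
    have h1 := x.det
    ext <;> simp
    · linear_combination h1
    · ring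
    · ring
    · linear_combination h1)

/-- Entrywise image under a ring homomorphism. -/
def map (φ : R →+* S) : S2 R →* S2 S where
  toFun x := ⟨φ x.a, φ x.b, φ x.c, φ x.d, by
    rw [← map_mul, ← map_mul, ← map_sub, x.det, map_one]⟩
  map_one' := by ext <;> simp
  map_mul' x y := by ext <;> simp

@[simp] lemma map_a (φ : R →+* S) (x : S2 R) : (map φ x).a = φ x.a := rfl
@[simp] lemma map_b (φ : R →+* S) (x : S2 R) : (map φ x).b = φ x.b := rfl
@[simp] lemma map_c (φ : R →+* S) (x : S2 R) : (map φ x).c = φ x.c := rfl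
@[simp] lemma map_d (φ : R →+* S) (x : S2 R) : (map φ x).d = φ x.d := rfl

instance [Finite R] : Finite (S2 R) :=
  Finite.of_injective (fun x : S2 R => (x.a, x.b, x.c, x.d)) (fun x y h => by
    simp only [Prod.mk.injEq] at h
    ext <;> tauto)

/-- The upper triangular subgroup. -/
def borel (R : Type) [CommRing R] : Subgroup (S2 R) where
  carrier := {h | h.c = 0}
  mul_mem' := by
    intro x y hx hy
    simp only [Set.mem_ofPred_eq] at *
    simp [hx, hy]
  one_mem' := rfl
  inv_mem' := by
    intro x hx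
    simp only [Set.mem_ofPred_eq] at *
    simp [hx]

lemma mem_borel {h : S2 R} : h ∈ borel R ↔ h.c = 0 := Iff.rfl

/-- The elementary matrix. -/
def u (x : R) : S2 R := ⟨1, x, 0, 1, by ring⟩

@[simp] lemma u_a (x : R) : (u x).a = 1 := rfl
@[simp] lemma u_b (x : R) : (u x).b = x := rfl
@[simp] lemma u_c (x : R) : (u x).c = 0 := rfl
@[simp] lemma u_d (x : R) : (u x).d = 1 := rfl

lemma row2_ne [Nontrivial R] (x : S2 R) : x.c ≠ 0 ∨ x.d ≠ 0 := by
  by_contra h
  push Not at h
  have := x.det
  simp [h.1, h.2] at this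

lemma row1_ne [Nontrivial R] (x : S2 R) : x.a ≠ 0 ∨ x.b ≠ 0 := by
  by_contra h
  push Not at h
  have := x.det
  simp [h.1, h.2] at this

end S2

/-- Polynomials over the field with two elements. -/
abbrev A : Type := (ZMod 2)[X]

lemma unit_eq_one {a d : A} (h : a * d = 1) : a = 1 := by
  have hu : IsUnit a := IsUnit.of_mul_eq_one d h
  obtain ⟨c, hc, rfl⟩ := Polynomial.isUnit_iff.1 hu
  have : c = 1 := by
    have key : ∀ z : ZMod 2, z ≠ 0 → z = 1 := by decide
    exact key c hc.ne_zero
  simp [this]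

/-- Constant matrices. -/
def G0 : Subgroup (S2 A) where
  carrier := {h | h.a.natDegree = 0 ∧ h.b.natDegree = 0 ∧ h.c.natDegree = 0 ∧ h.d.natDegree = 0}
  mul_mem' := by
    intro x y hx hy
    obtain ⟨h1, h2, h3, h4⟩ := hx
    obtain ⟨h5, h6, h7, h8⟩ := hy
    have key : ∀ p q s t : A, p.natDegree = 0 → q.natDegree = 0 → s.natDegree = 0 →
        t.natDegree = 0 → (p * q + s * t).natDegree = 0 := by
      intro p q s t hp hq hs ht
      have e1 := natDegree_add_le (p * q) (s * t)
      have e2 := natDegree_mul_le (p := p) (q := q)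
      have e3 := natDegree_mul_le (p := s) (q := t)
      omega
    exact ⟨key _ _ _ _ h1 h5 h2 h7, key _ _ _ _ h1 h6 h2 h8, key _ _ _ _ h3 h5 h4 h7,
      key _ _ _ _ h3 h6 h4 h8⟩
  one_mem' := by simp
  inv_mem' := by
    intro x hx
    obtain ⟨h1, h2, h3, h4⟩ := hx
    simp [h1, h2, h3, h4]

/-- Elementary matrices of degree at most `i`. -/
def U (i : ℕ) : Subgroup (S2 A) where
  carrier := {h | h.a = 1 ∧ h.c = 0 ∧ h.d = 1 ∧ h.b.natDegree ≤ i}
  mul_mem' := by
    intro x y hx hy
    obtain ⟨h1, h2, h3, h4⟩ := hx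
    obtain ⟨h5, h6, h7, h8⟩ := hy
    refine ⟨by simp [h1, h5, h6], by simp [h2, h6], by simp [h2, h3, h7], ?_⟩
    have e1 := natDegree_add_le y.b x.b
    simp only [S2.mul_b, h1, h7, one_mul, mul_one]
    omega
  one_mem' := by simp
  inv_mem' := by
    intro x hx
    obtain ⟨h1, h2, h3, h4⟩ := hx
    simp [h1, h2, h3, h4]

lemma mem_G0 {h : S2 A} : h ∈ G0 ↔
    h.a.natDegree = 0 ∧ h.b.natDegree = 0 ∧ h.c.natDegree = 0 ∧ h.d.natDegree = 0 := Iff.rfl

lemma mem_U {i : ℕ} {h : S2 A} : h ∈ U i ↔
    h.a = 1 ∧ h.c = 0 ∧ h.d = 1 ∧ h.b.natDegree ≤ i := Iff.rfl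

/-- The vertex stabilisers along the standard ray. -/
def Gam (i : ℕ) : Subgroup (S2 A) := if i = 0 then G0 else U i

lemma Gam_zero : Gam 0 = G0 := by simp [Gam]

lemma Gam_pos {i : ℕ} (hi : i ≠ 0) : Gam i = U i := by simp [Gam, hi]

lemma U_le_Gam (i : ℕ) {h : S2 A} (hh : h ∈ U i) : h ∈ Gam i := by
  by_cases hi : i = 0
  · subst hi
    rw [Gam_zero]
    obtain ⟨h1, h2, h3, h4⟩ := hh
    exact ⟨by simp [h1], by omega, by simp [h2], by simp [h3]⟩
  · rwa [Gam_pos hi]

lemma u_mem_U {i : ℕ} {x : A} (hx : x.natDegree ≤ i) : S2.u x ∈ U i := ⟨rfl, rfl, rfl, hx⟩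

/-- `c` has degree smaller than `d` by more than `i`. -/
def P (i : ℕ) (c d : A) : Prop := c = 0 ∨ c.natDegree + i < d.natDegree

open Classical in
/-- The height function of a row vector at level `i`. -/
noncomputable def phi (i : ℕ) (c d : A) : ℤ :=
  if P i c d then 2 * (d.natDegree : ℤ) - i else 2 * (c.natDegree : ℤ) + i

lemma phi_of_P {i : ℕ} {c d : A} (h : P i c d) : phi i c d = 2 * (d.natDegree : ℤ) - i := by
  simp [phi, h]

lemma phi_of_not_P {i : ℕ} {c d : A} (h : ¬ P i c d) :
    phi i c d = 2 * (c.natDegree : ℤ) + i := by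
  simp [phi, h]

lemma phi_succ_of_P {i : ℕ} {c d : A} (h : P i c d) : phi (i + 1) c d = phi i c d - 1 := by
  rw [phi_of_P h]
  by_cases h' : P (i + 1) c d
  · rw [phi_of_P h']
    push_cast
    ring
  · rw [phi_of_not_P h']
    unfold P at h h'
    push Not at h'
    rcases h with h | h
    · exact absurd h h'.1
    · have := h'.2
      push_cast
      omega

lemma phi_succ_of_not_P {i : ℕ} {c d : A} (h : ¬ P i c d) :
    phi (i + 1) c d = phi i c d + 1 := by
  have h' : ¬ P (i + 1) c d := by
    unfold P at h ⊢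
    push Not at h ⊢
    exact ⟨h.1, by omega⟩
  rw [phi_of_not_P h, phi_of_not_P h']
  push_cast
  ring

lemma le_phi {i : ℕ} {c d : A} (hc : c ≠ 0) : 2 * (c.natDegree : ℤ) + i ≤ phi i c d := by
  by_cases h : P i c d
  · rw [phi_of_P h]
    rcases h with h | h
    · exact absurd h hc
    · omega
  · rw [phi_of_not_P h]

lemma P_add_iff {i : ℕ} {c d x : A} (hx : x.natDegree ≤ i) : P i c (c * x + d) ↔ P i c d := by
  by_cases hc : c = 0
  · simp [P, hc]
  have e1 := natDegree_mul_le (p := c) (q := x)
  simp only [P, hc, false_or]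
  constructor
  · intro h
    by_contra h'
    have e2 := natDegree_add_le (c * x) d
    omega
  · intro h
    rw [natDegree_add_eq_right_of_natDegree_lt (by omega)]
    exact h

lemma phi_add {i : ℕ} {c d x : A} (hx : x.natDegree ≤ i) : phi i c (c * x + d) = phi i c d := by
  by_cases h : P i c d
  · rw [phi_of_P h, phi_of_P ((P_add_iff hx).2 h)]
    rcases h with h | h
    · simp [h]
    · have e1 := natDegree_mul_le (p := c) (q := x)
      rw [natDegree_add_eq_right_of_natDegree_lt (by omega)]
  · rw [phi_of_not_P h, phi_of_not_P (fun h' => h ((P_add_iff hx).1 h'))]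

lemma phi_zero (c d : A) : phi 0 c d = 2 * ((max c.natDegree d.natDegree : ℕ) : ℤ) := by
  by_cases h : P 0 c d
  · rw [phi_of_P h]
    rcases h with h | h
    · simp [h]
    · rw [max_eq_right (by omega)]
      simp
  · rw [phi_of_not_P h]
    unfold P at h
    push Not at h
    rw [max_eq_left (by omega)]
    simp

lemma comb_le {c d p q : A} (hp : p.natDegree = 0) (hq : q.natDegree = 0) :
    (c * p + d * q).natDegree ≤ max c.natDegree d.natDegree := by
  have e1 := natDegree_add_le (c * p) (d * q)
  have e2 := natDegree_mul_le (p := c) (q := p)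
  have e3 := natDegree_mul_le (p := d) (q := q)
  omega

lemma max_inv {c d : A} {h : S2 A} (hh : h ∈ G0) :
    max (c * h.a + d * h.c).natDegree (c * h.b + d * h.d).natDegree
      = max c.natDegree d.natDegree := by
  obtain ⟨h1, h2, h3, h4⟩ := hh
  have hd := h.det
  apply le_antisymm
  · exact max_le (comb_le h1 h3) (comb_le h2 h4)
  · have ec : c = (c * h.a + d * h.c) * h.d + (c * h.b + d * h.d) * (-h.c) := by
      linear_combination (-c) * hd
    have ed : d = (c * h.a + d * h.c) * (-h.b) + (c * h.b + d * h.d) * h.a := by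
      linear_combination (-d) * hd
    apply max_le
    · conv_lhs => rw [ec]
      exact comb_le h4 (by simpa using h3)
    · conv_lhs => rw [ed]
      exact comb_le (by simpa using h2) h1

/-- Invariance of the height under the stabiliser. -/
lemma phi_inv {i : ℕ} {c d : A} {h : S2 A} (hh : h ∈ Gam i) :
    phi i (c * h.a + d * h.c) (c * h.b + d * h.d) = phi i c d := by
  by_cases hi : i = 0
  · subst hi
    rw [Gam_zero] at hh
    rw [phi_zero, phi_zero, max_inv hh]
  · rw [Gam_pos hi] at hh
    obtain ⟨h1, h2, h3, h4⟩ := hh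
    simp only [h1, h2, h3, mul_one, mul_zero, add_zero]
    exact phi_add h4

lemma phi_step {i j : ℕ} (hij : j = i + 1 ∨ i = j + 1) (c d : A) :
    phi j c d = phi i c d + 1 ∨ phi j c d = phi i c d - 1 := by
  rcases hij with rfl | rfl
  · by_cases h : P i c d
    · exact Or.inr (phi_succ_of_P h)
    · exact Or.inl (phi_succ_of_not_P h)
  · by_cases h : P j c d
    · left
      rw [phi_succ_of_P h]
      ring
    · right
      rw [phi_succ_of_not_P h]
      ring

lemma P_of_up {i : ℕ} {c d : A} (h : phi (i + 1) c d < phi i c d) : P i c d := by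
  by_contra h'
  rw [phi_succ_of_not_P h'] at h
  omega

lemma not_P_of_down {i : ℕ} {c d : A} (h : phi i c d < phi (i + 1) c d) : ¬ P i c d := by
  intro h'
  rw [phi_succ_of_P h'] at h
  omega

/-- The neighbour of smaller height is unique. -/
lemma down_unique {i j j' : ℕ} (hj : j = i + 1 ∨ i = j + 1) (hj' : j' = i + 1 ∨ i = j' + 1)
    {c d : A} (hcd : c ≠ 0 ∨ d ≠ 0) {h : S2 A} (hh : h ∈ Gam i)
    (h1 : phi j c d < phi i c d)
    (h2 : phi j' (c * h.a + d * h.c) (c * h.b + d * h.d)
      < phi i (c * h.a + d * h.c) (c * h.b + d * h.d)) :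
    j' = j ∧ h ∈ Gam j := by
  by_cases hi : i = 0
  · subst hi
    have ej : j = 0 + 1 := by omega
    have ej' : j' = 0 + 1 := by omega
    subst ej ej'
    refine ⟨rfl, ?_⟩
    rw [Gam_zero] at hh
    have p1 := P_of_up h1
    have p2 := P_of_up h2
    have hm := max_inv (c := c) (d := d) hh
    obtain ⟨ha, hb, hc, hd⟩ := hh
    have hc0 : h.c = 0 := by
      by_contra hc0
      have hd0 : d ≠ 0 := by
        rcases p1 with p1 | p1
        · rcases hcd with h' | h'
          · exact absurd p1 h'
          · exact h'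
        · rintro rfl
          simp at p1
      have e1 : (d * h.c).natDegree = d.natDegree := by
        rw [natDegree_mul hd0 hc0, hc, add_zero]
      have e0 : d * h.c ≠ 0 := mul_ne_zero hd0 hc0
      have e2 := natDegree_mul_le (p := c) (q := h.a)
      have e3 : (c * h.a + d * h.c).natDegree = d.natDegree ∧ c * h.a + d * h.c ≠ 0 := by
        rcases p1 with p1 | p1
        · simp [p1, e1, hd0, hc0]
        · have e4 : (c * h.a + d * h.c).natDegree = d.natDegree := by
            rw [natDegree_add_eq_right_of_natDegree_lt (by omega), e1]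
          refine ⟨e4, fun h0 => ?_⟩
          rw [h0] at e4
          simp at e4
          omega
      have e5 : c.natDegree ≤ d.natDegree := by
        rcases p1 with p1 | p1
        · simp [p1]
        · omega
      rcases p2 with p2 | p2
      · exact e3.2 p2
      · have := e3.1
        omega
    have hdet := h.det
    rw [hc0, mul_zero, sub_zero] at hdet
    rw [Gam_pos (by omega)]
    exact ⟨unit_eq_one hdet, hc0, unit_eq_one (by rw [mul_comm]; exact hdet), by omega⟩
  · rw [Gam_pos hi] at hh
    obtain ⟨ha, hc, hd, hb⟩ := hh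
    simp only [ha, hc, hd, mul_one, mul_zero, add_zero] at h2
    rcases hj with rfl | rfl
    · have p1 := P_of_up h1
      have p2 := (P_add_iff hb).2 p1
      rcases hj' with rfl | rfl
      · exact ⟨rfl, U_le_Gam _ ⟨ha, hc, hd, by omega⟩⟩
      · exfalso
        apply not_P_of_down h2
        rcases p2 with p2 | p2
        · exact Or.inl p2
        · exact Or.inr (by omega)
    · have p1 := not_P_of_down h1
      unfold P at p1
      push Not at p1
      rcases hj' with rfl | hj'
      · exfalso
        have p2 := (P_add_iff hb).1 (P_of_up h2)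
        rcases p2 with p2 | p2
        · exact p1.1 p2
        · have := p1.2
          omega
      · have e : j' = j := by omega
        subst e
        refine ⟨rfl, U_le_Gam _ ⟨ha, hc, hd, ?_⟩⟩
        have p2 := not_P_of_down h2
        unfold P at p2
        push Not at p2
        by_cases hb0 : h.b = 0
        · simp [hb0]
        have e1 : (c * h.b).natDegree = c.natDegree + h.b.natDegree := natDegree_mul p1.1 hb0
        have e2 : c * h.b = (c * h.b + d) - d := by ring
        have e3 := natDegree_sub_le (c * h.b + d) d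
        rw [← e2] at e3
        have := p1.2
        have := p2.2
        omega

end Pool.Agent.MP_3838e6_co
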