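import Pool.Agent.MP_3838e6_co.Alg

set_option autoImplicit false

namespace Pool.Agent.MP_3838e6_co

open Polynomial

/-- The data of a field with `2 ^ r` elements presented as a quotient of the polynomial ring. -/
structure Setup (r : ℕ) where
  K : Type
  [fK : Field K]
  [tK : Fintype K]
  ev : A →+* K
  f : A
  hf : f.natDegree = r
  hf0 : f ≠ 0
  ker : ∀ p : A, ev p = 0 ↔ f ∣ p
  card : Fintype.card K = 2 ^ r

attribute [instance] Setup.fK Setup.tK

namespace Setup

variable {r : ℕ} (S : Setup r)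

/-- Reduction of polynomial matrices. -/
noncomputable def pr : S2 A →* S2 S.K := S2.map S.ev

@[simp] lemma pr_a (x : S2 A) : (S.pr x).a = S.ev x.a := rfl
@[simp] lemma pr_b (x : S2 A) : (S.pr x).b = S.ev x.b := rfl
@[simp] lemma pr_c (x : S2 A) : (S.pr x).c = S.ev x.c := rfl
@[simp] lemma pr_d (x : S2 A) : (S.pr x).d = S.ev x.d := rfl

lemma eq_zero_of_ev {p : A} (hp : S.ev p = 0) (hd : p.natDegree < r) : p = 0 := by
  by_contra h0
  have := natDegree_le_of_dvd ((S.ker p).1 hp) h0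
  rw [S.hf] at this
  omega

/-- The chain of subgroups. -/
noncomputable def H (i : ℕ) : Subgroup (S2 S.K) :=
  if i < r then (Gam i).map S.pr else S2.borel S.K

lemma H_lt {i : ℕ} (hi : i < r) {g : S2 S.K} (hg : g ∈ S.H i) : ∃ h ∈ Gam i, S.pr h = g := by
  simpa [H, hi] using hg

lemma H_top {g : S2 S.K} : g ∈ S.H r ↔ g.c = 0 := by
  simp [H, S2.mem_borel]

lemma pr_mem_H (hr : r ≠ 0) {i : ℕ} {h : S2 A} (hh : h ∈ Gam i) : S.pr h ∈ S.H i := by
  by_cases hi : i < r
  · simp only [H, hi, if_true]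
    exact Subgroup.mem_map_of_mem _ hh
  · simp only [H, hi, if_false, S2.mem_borel]
    rw [Gam_pos (by omega)] at hh
    simp [hh.2.1]

lemma H_c {i : ℕ} (hi : i ≠ 0) {g : S2 S.K} (hg : g ∈ S.H i) : g.c = 0 := by
  by_cases hir : i < r
  · obtain ⟨h, hh, rfl⟩ := S.H_lt hir hg
    rw [Gam_pos hi] at hh
    simp [hh.2.1]
  · simpa [H, hir, S2.mem_borel] using hg

/-- A level together with a coset. -/
def vtx (i : ℕ) (g : S2 S.K) : ℕ × Set (S2 S.K) := (i, {x | g⁻¹ * x ∈ S.H i})

/-- The vertices. -/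
def V : Type := {p : ℕ × Set (S2 S.K) // ∃ i ≤ r, ∃ g, p = S.vtx i g}

/-- The vertex of level `i` given by `g`. -/
def vx (i : ℕ) (g : S2 S.K) : S.V := ⟨S.vtx (min i r) g, min i r, min_le_right _ _, g, rfl⟩

/-- The level of a vertex. -/
def lvl (x : S.V) : ℕ := x.1.1

lemma lvl_mk {i : ℕ} (hi : i ≤ r) (g : S2 S.K) : S.lvl (S.vx i g) = i := by
  simp [lvl, vx, vtx, hi]

lemma lvl_le (x : S.V) : S.lvl x ≤ r := by
  obtain ⟨p, i, hi, g, rfl⟩ := x
  exact hi

lemma exists_rep (x : S.V) : ∃ g, x = S.vx (S.lvl x) g := by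
  obtain ⟨p, i, hi, g, rfl⟩ := x
  refine ⟨g, Subtype.ext ?_⟩
  simp [lvl, vx, vtx, hi]

lemma mk_eq_iff {i : ℕ} (hi : i ≤ r) {g g' : S2 S.K} :
    S.vx i g = S.vx i g' ↔ g⁻¹ * g' ∈ S.H i := by
  constructor
  · intro h
    have h1 := congrArg (fun x : S.V => x.1.2) h
    simp only [vx, vtx, min_eq_left hi] at h1
    have h2 : g' ∈ {x | g'⁻¹ * x ∈ S.H i} := by simp
    rw [← h1] at h2
    exact h2
  · intro h
    apply Subtype.ext
    simp only [vx, vtx, min_eq_left hi, Prod.mk.injEq, true_and]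
    ext x
    simp only [Set.mem_ofPred_eq]
    constructor
    · intro hx
      have := (S.H i).mul_mem ((S.H i).inv_mem h) hx
      simpa [mul_assoc] using this
    · intro hx
      have := (S.H i).mul_mem h hx
      simpa [mul_assoc] using this

lemma mk_mul {i : ℕ} (hi : i ≤ r) (g : S2 S.K) {h : S2 S.K} (hh : h ∈ S.H i) :
    S.vx i (g * h) = S.vx i g := by
  symm
  rw [S.mk_eq_iff hi]
  simpa using hh

instance : Finite S.V := by
  apply Finite.of_surjective (fun p : Fin (r + 1) × S2 S.K => S.vx p.1 p.2)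
  intro x
  obtain ⟨g, hg⟩ := S.exists_rep x
  exact ⟨(⟨S.lvl x, Nat.lt_succ_of_le (S.lvl_le x)⟩, g), hg.symm⟩

/-- The graph: cosets of consecutive levels with a common element are adjacent. -/
def graph : SimpleGraph S.V where
  Adj x y := (S.lvl y = S.lvl x + 1 ∨ S.lvl x = S.lvl y + 1) ∧
    ∃ g, x = S.vx (S.lvl x) g ∧ y = S.vx (S.lvl y) g
  symm := ⟨fun _ _ ⟨h1, g, h2, h3⟩ => ⟨h1.symm, g, h3, h2⟩⟩
  loopless := ⟨fun x ⟨h1, _⟩ => by omega⟩

lemma adj_mk {i : ℕ} (hi : i < r) (g : S2 S.K) : S.graph.Adj (S.vx i g) (S.vx (i + 1) g) := by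
  refine ⟨Or.inl ?_, g, ?_, ?_⟩
  · rw [S.lvl_mk hi.le, S.lvl_mk hi]
  · rw [S.lvl_mk hi.le]
  · rw [S.lvl_mk hi]

/-- Lifting of non-backtracking walks that start downwards. -/
lemma lift (hr : r ≠ 0) (x : ℕ → S.V) (N : ℕ)
    (hadj : ∀ n < N, S.graph.Adj (x n) (x (n + 1)))
    (hnb : ∀ n, n + 2 ≤ N → x (n + 2) ≠ x n)
    (hint : ∀ n, 1 ≤ n → n < N → S.lvl (x n) < r)
    (g0 : S2 S.K) (h0 : x 0 = S.vx (S.lvl (x 0)) g0) (h1 : x 1 = S.vx (S.lvl (x 1)) g0)
    (hl : S.lvl (x 0) = S.lvl (x 1) + 1) :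
    ∀ n < N, ∃ E : S2 A, x n = S.vx (S.lvl (x n)) (g0 * S.pr E) ∧
      x (n + 1) = S.vx (S.lvl (x (n + 1))) (g0 * S.pr E) ∧
      phi (S.lvl (x n)) E.c E.d = (n : ℤ) - S.lvl (x 0) ∧
      phi (S.lvl (x (n + 1))) E.c E.d = (n : ℤ) + 1 - S.lvl (x 0) ∧
      phi (S.lvl (x (n + 1))) E.a E.b ≤ (n : ℤ) + S.lvl (x 0) - 1 := by
  intro n
  induction n with
  | zero =>
    intro _
    refine ⟨1, by simpa using h0, by simpa using h1, ?_, ?_, ?_⟩
    · rw [phi_of_P (c := (1 : S2 A).c) (Or.inl rfl)]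
      simp
    · rw [phi_of_P (c := (1 : S2 A).c) (Or.inl rfl)]
      simp only [S2.one_d, natDegree_one, zero_add]
      omega
    · rw [phi_of_not_P (by simp [P])]
      simp only [S2.one_a, natDegree_one, zero_add]
      omega
  | succ n ih =>
    intro hn
    obtain ⟨E, e1, e2, e3, e4, e5⟩ := ih (by omega)
    obtain ⟨hlv, g, e6, e7⟩ := hadj (n + 1) hn
    obtain ⟨hlv0, -⟩ := hadj n (by omega)
    have hi := hint (n + 1) (by omega) hn
    have e8 : (g0 * S.pr E)⁻¹ * g ∈ S.H (S.lvl (x (n + 1))) := by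
      rw [← S.mk_eq_iff hi.le, ← e2, ← e6]
    obtain ⟨h, hh, e9⟩ := S.H_lt hi e8
    have eg : g = g0 * S.pr (E * h) := by
      rw [map_mul, e9]
      group
    have i1 := phi_inv (c := E.c) (d := E.d) hh
    have i2 := phi_inv (c := E.a) (d := E.b) hh
    refine ⟨E * h, eg ▸ e6, eg ▸ e7, ?_, ?_, ?_⟩
    · simp only [S2.mul_c, S2.mul_d]
      rw [i1, e4]
      push_cast
      ring
    · simp only [S2.mul_c, S2.mul_d]
      rcases phi_step hlv (E.c * h.a + E.d * h.c) (E.c * h.b + E.d * h.d) with s | s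
      · rw [s, i1, e4]
        push_cast
        ring
      · exfalso
        obtain ⟨u1, u2⟩ := down_unique (i := S.lvl (x (n + 1))) (j := S.lvl (x n))
          (j' := S.lvl (x (n + 1 + 1))) hlv0.symm hlv (S2.row2_ne E) hh (by omega) (by omega)
        apply hnb n (by omega)
        rw [e7, u1, eg, map_mul, ← mul_assoc, S.mk_mul (S.lvl_le _) _ (S.pr_mem_H hr u2), ← e1]
    · simp only [S2.mul_a, S2.mul_b]
      rcases phi_step hlv (E.a * h.a + E.b * h.c) (E.a * h.b + E.b * h.d) with s | s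
      · rw [s, i2]
        push_cast
        omega
      · rw [s, i2]
        push_cast
        omega

/-- A closed non-backtracking walk that starts at a highest vertex and meets no vertex of level
`r` in its interior has length at least `4 r`. -/
lemma closed_long (hr : r ≠ 0) (x : ℕ → S.V) (M : ℕ) (hM : 1 ≤ M)
    (hadj : ∀ n < M + 1, S.graph.Adj (x n) (x (n + 1)))
    (hnb : ∀ n, n + 2 ≤ M + 1 → x (n + 2) ≠ x n)
    (hint : ∀ n, 1 ≤ n → n < M + 1 → S.lvl (x n) < r)
    (hmax : ∀ n ≤ M + 1, S.lvl (x n) ≤ S.lvl (x 0))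
    (hcl : x (M + 1) = x 0) (hne : x M ≠ x 1) : 4 * r ≤ M + 1 := by
  obtain ⟨hl, g0, h0, h1⟩ := hadj 0 (by omega)
  have hl' : S.lvl (x 0) = S.lvl (x 1) + 1 := by
    have := hmax 1 (by omega)
    simp only [zero_add] at hl
    omega
  obtain ⟨E, e1, e2, e3, e4, e5⟩ := S.lift hr x (M + 1) hadj hnb hint g0 h0 h1 hl' M (by omega)
  have hlM : S.lvl (x M) = S.lvl (x 1) := by
    have h2 := (hadj M (by omega)).1
    have h3 := hmax M (by omega)
    rw [hcl] at h2
    omega
  rw [hcl] at e2 e4 e5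
  rw [hlM] at e1 e3
  set j := S.lvl (x 1) with hj
  rw [hl'] at e2 e3 e4 e5 h0
  have hjr : j + 1 ≤ r := hl' ▸ S.lvl_le (x 0)
  have p1 : ¬ P j E.c E.d := not_P_of_down (by omega)
  have e6 := phi_of_not_P p1
  unfold P at p1
  push Not at p1
  obtain ⟨hc0, hcd⟩ := p1
  have e7 : g0⁻¹ * (g0 * S.pr E) ∈ S.H (j + 1) := by
    rw [← S.mk_eq_iff hjr, ← e2, ← h0]
  rw [inv_mul_cancel_left] at e7
  have hcf : S.f ∣ E.c := (S.ker _).1 (S.H_c (by omega) e7)
  by_cases htop : j + 1 = r
  · have := natDegree_le_of_dvd hcf hc0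
    rw [S.hf] at this
    omega
  · obtain ⟨h, hh, e8⟩ := S.H_lt (by omega) e7
    rw [Gam_pos (by omega)] at hh
    obtain ⟨ha, hc, hd, hb⟩ := hh
    have hb' : h.b.natDegree = j + 1 := by
      by_contra hb'
      apply hne
      rw [e1, ← e8, S.mk_mul (by omega) _ (S.pr_mem_H hr (U_le_Gam j ⟨ha, hc, hd, by omega⟩))]
      exact h1.symm
    have hb0 : h.b ≠ 0 := by
      rintro hb0
      rw [hb0] at hb'
      simp at hb'
    have fa : S.f ∣ E.a - 1 := by
      rw [← S.ker]
      have := congrArg S2.a e8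
      simp only [pr_a, ha, map_one] at this
      simp [← this]
    have fb : S.f ∣ E.b - h.b := by
      rw [← S.ker]
      have := congrArg S2.b e8
      simp only [pr_b] at this
      simp [← this]
    have fd : S.f ∣ E.d - 1 := by
      rw [← S.ker]
      have := congrArg S2.d e8
      simp only [pr_d, hd, map_one] at this
      simp [← this]
    have hdet := E.det
    have key : S.f * S.f ∣ (2 - E.a - E.d) + E.c * h.b := by
      have e : (2 - E.a - E.d) + E.c * h.b
          = (E.a - 1) * (E.d - 1) - (E.b - h.b) * E.c := by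
        linear_combination (-1 : A) * hdet
      rw [e]
      exact dvd_sub (mul_dvd_mul fa fd) (mul_dvd_mul fb hcf)
    have d1 : (E.c * h.b).natDegree = E.c.natDegree + (j + 1) := by
      rw [natDegree_mul hc0 hb0, hb']
    have d2 : E.a.natDegree ≤ E.c.natDegree + j := by
      by_cases ha0 : E.a = 0
      · simp [ha0]
      · have := le_phi (i := j + 1) (d := E.b) ha0
        push_cast at this e3 e4 e5
        omega
    have d3 : (2 - E.a - E.d).natDegree ≤ E.c.natDegree + j := by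
      have t1 := natDegree_sub_le (2 - E.a) E.d
      have t2 := natDegree_sub_le (2 : A) E.a
      have t3 : (2 : A).natDegree = 0 := natDegree_ofNat 2
      omega
    have d4 : ((2 - E.a - E.d) + E.c * h.b).natDegree = E.c.natDegree + (j + 1) := by
      rw [natDegree_add_eq_right_of_natDegree_lt (by omega), d1]
    have d5 : (2 - E.a - E.d) + E.c * h.b ≠ 0 := by
      intro h0
      rw [h0] at d4
      simp at d4
    have d6 := natDegree_le_of_dvd key d5
    rw [natDegree_mul S.hf0 S.hf0, S.hf, d4] at d6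
    push_cast at e3
    omega

open Classical in
/-- A lower bound for the distance from a vertex of level `r`. -/
noncomputable def psi (z x : S.V) : ℤ :=
  if ∃ g, x = S.vx (S.lvl x) g ∧ z = S.vx r g then (r : ℤ) - S.lvl x else (r : ℤ) + S.lvl x

lemma psi_adj (z : S.V) {x y : S.V} (h : S.graph.Adj x y) : S.psi z y ≤ S.psi z x + 1 := by
  obtain ⟨hl, g, hx, hy⟩ := h
  have key : ∀ w : S.V, S.lvl w ≠ 0 → w = S.vx (S.lvl w) g →
      ((∃ g', w = S.vx (S.lvl w) g' ∧ z = S.vx r g') ↔ z = S.vx r g) := by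
    intro w hw0 hw
    constructor
    · rintro ⟨g', h1, h2⟩
      rw [h2, S.mk_eq_iff le_rfl, S.H_top]
      apply S.H_c hw0
      rw [← S.mk_eq_iff (S.lvl_le w), ← h1, ← hw]
    · intro h2
      exact ⟨g, hw, h2⟩
  unfold psi
  by_cases hx0 : S.lvl x = 0
  · split_ifs <;> omega
  by_cases hy0 : S.lvl y = 0
  · split_ifs <;> omega
  rw [key x hx0 hx, key y hy0 hy]
  split_ifs <;> omega

lemma psi_self {z : S.V} (hz : S.lvl z = r) : S.psi z z = 0 := by
  obtain ⟨g, hg⟩ := S.exists_rep z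
  unfold psi
  rw [if_pos ⟨g, hg, by rw [hz] at hg; exact hg⟩, hz]
  simp

lemma psi_ne {z z' : S.V} (hz : S.lvl z' = r) (hne : z' ≠ z) : S.psi z z' = 2 * r := by
  unfold psi
  rw [if_neg, hz]
  · ring
  · rintro ⟨g, h1, h2⟩
    rw [hz] at h1
    exact hne (h1.trans h2.symm)

lemma psi_walk (z : S.V) {x y : S.V} (p : S.graph.Walk x y) :
    S.psi z y ≤ S.psi z x + p.length := by
  induction p with
  | nil => simp
  | cons h p ih =>
    have := S.psi_adj z h
    simp only [SimpleGraph.Walk.length_cons]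
    push_cast
    omega

theorem cycle_long (hr : r ≠ 0) {v : S.V} (p : S.graph.Walk v v) (hp : p.IsCycle) :
    4 * r ≤ p.length := by
  classical
  obtain ⟨w, hw, hmax⟩ := Finset.exists_max_image p.support.toFinset S.lvl
    ⟨v, by simp⟩
  rw [List.mem_toFinset] at hw
  set q := p.rotate w hw with hq
  have hqc : q.IsCycle := by simpa [hq] using hp
  have hlen : q.length = p.length := by simp [hq]
  rw [← hlen]
  have h3 := hqc.three_le_length
  have hmax' : ∀ n, S.lvl (q.getVert n) ≤ S.lvl w := by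
    intro n
    apply hmax
    rw [List.mem_toFinset, ← SimpleGraph.Walk.mem_support_rotate_iff p w hw]
    exact q.getVert_mem_support n
  by_cases hint : ∀ n, 1 ≤ n → n < q.length → S.lvl (q.getVert n) < r
  · obtain ⟨M, hM⟩ : ∃ M, q.length = M + 1 := ⟨q.length - 1, by omega⟩
    rw [hM]
    apply S.closed_long hr q.getVert M (by omega)
    · intro n hn
      exact q.adj_getVert_succ (by omega)
    · intro n hn h
      by_cases hn0 : n = 0
      · have := hqc.getVert_injOn' (by simp only [Set.mem_ofPred_eq]; omega)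
          (by simp only [Set.mem_ofPred_eq]; omega) h
        omega
      · have := hqc.getVert_injOn (by simp only [Set.mem_ofPred_eq]; omega)
          (by simp only [Set.mem_ofPred_eq]; omega) h
        omega
    · intro n h1 h2
      exact hint n h1 (by omega)
    · intro n _
      simpa using hmax' n
    · rw [← hM]
      simp
    · intro h
      have := hqc.getVert_injOn (by simp only [Set.mem_ofPred_eq]; omega)
        (by simp only [Set.mem_ofPred_eq]; omega) h
      omega
  · push Not at hint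
    obtain ⟨n, h1, h2, h4⟩ := hint
    have h5 : S.lvl (q.getVert n) = r := le_antisymm (S.lvl_le _) h4
    have h6 : S.lvl w = r := le_antisymm (S.lvl_le _) (h4.trans (hmax' n))
    have h7 : q.getVert n ≠ w := by
      intro h
      have := (hqc.getVert_endpoint_iff h2.le).1 h
      omega
    have a1 := S.psi_walk w (q.take n)
    have a2 := S.psi_walk (q.getVert n) (q.drop n)
    rw [S.psi_self h6, S.psi_ne h5 h7] at a1
    rw [S.psi_self h5, S.psi_ne h6 h7.symm] at a2
    simp only [SimpleGraph.Walk.take_length, SimpleGraph.Walk.drop_length] at a1 a2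
    omega

end Setup

end Pool.Agent.MP_3838e6_co
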