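import Pool.Agent.MP_3838e6_co.Graph

set_option autoImplicit false

namespace Pool.Agent.MP_3838e6_co

open Polynomial

/-- The coordinate swap. -/
noncomputable def wA : S2 A := ⟨0, 1, 1, 0, by simp [CharTwo.neg_eq]⟩

/-- The lower elementary matrix. -/
noncomputable def lA : S2 A := ⟨1, 0, 1, 1, by simp⟩

lemma wA_mem : wA ∈ Gam 0 := by
  rw [Gam_zero]
  simp [mem_G0, wA]

lemma lA_mem : lA ∈ Gam 0 := by
  rw [Gam_zero]
  simp [mem_G0, lA]

namespace Setup

variable {r : ℕ} (S : Setup r)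

lemma edist_up (g : S2 S.K) (i k : ℕ) (h : i + k ≤ r) :
    S.graph.edist (S.vx i g) (S.vx (i + k) g) ≤ (k : ℕ) := by
  induction k with
  | zero => simp
  | succ k ih =>
    have h1 := ih (by omega)
    have h2 : S.graph.edist (S.vx (i + k) g) (S.vx (i + k + 1) g) = 1 :=
      SimpleGraph.edist_eq_one_iff_adj.2 (S.adj_mk (by omega) g)
    calc S.graph.edist (S.vx i g) (S.vx (i + (k + 1)) g)
        ≤ S.graph.edist (S.vx i g) (S.vx (i + k) g)
          + S.graph.edist (S.vx (i + k) g) (S.vx (i + k + 1) g) := SimpleGraph.edist_triangle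
      _ ≤ (k : ℕ) + 1 := by
          rw [h2]
          gcongr
      _ = ((k + 1 : ℕ) : ℕ∞) := by push_cast; rfl

lemma edist_trans {x y z : S.V} {m n : ℕ} (h1 : S.graph.edist x y ≤ m)
    (h2 : S.graph.edist y z ≤ n) : S.graph.edist x z ≤ (m + n : ℕ) := by
  calc S.graph.edist x z ≤ S.graph.edist x y + S.graph.edist y z := SimpleGraph.edist_triangle
    _ ≤ (m : ℕ∞) + n := add_le_add h1 h2
    _ = ((m + n : ℕ) : ℕ∞) := by push_cast; rfl

lemma edist_mono {x y : S.V} {m n : ℕ} (h1 : S.graph.edist x y ≤ m) (h : m ≤ n) :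
    S.graph.edist x y ≤ n := h1.trans (by exact_mod_cast h)

lemma edist_u (hr : r ≠ 0) (g : S2 S.K) {x : A} (hx : x.natDegree ≤ r) :
    S.graph.edist (S.vx 0 g) (S.vx 0 (g * S.pr (S2.u x))) ≤ (2 * x.natDegree : ℕ) := by
  have h1 := S.edist_up g 0 x.natDegree (by omega)
  have h2 := S.edist_up (g * S.pr (S2.u x)) 0 x.natDegree (by omega)
  rw [zero_add] at h1 h2
  rw [S.mk_mul hx _ (S.pr_mem_H hr (U_le_Gam _ (u_mem_U le_rfl))), SimpleGraph.edist_comm] at h2
  exact S.edist_mono (S.edist_trans h1 h2) (by omega)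

lemma euclid (hr : r ≠ 0) (c a : A) : (a ≠ 0 ∨ c ≠ 0) → a.natDegree ≤ r → c.natDegree ≤ r →
    ∃ (M : S2 A) (e : A), a = e * M.a ∧ c = e * M.c ∧ ∀ g : S2 S.K,
      S.graph.edist (S.vx 0 g) (S.vx 0 (g * S.pr M)) ≤ (2 * max a.natDegree c.natDegree : ℕ) := by
  induction c, a using EuclideanDomain.GCD.induction with
  | H0 a =>
    intro _ _ _
    exact ⟨1, a, by simp, by simp, fun g => by simp⟩
  | H1 c a hc ih =>
    intro _ ha hcr
    have hm : (a % c).natDegree ≤ c.natDegree :=
      natDegree_le_natDegree (degree_mod_lt a hc).le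
    obtain ⟨M, e, e1, e2, e3⟩ := ih (Or.inl hc) hcr (by omega)
    have hdiv : (a / c).natDegree + c.natDegree ≤ max a.natDegree c.natDegree := by
      by_cases h0 : a / c = 0
      · simp [h0]
      · have hle : c.degree ≤ a.degree := by
          by_contra hlt
          exact h0 ((Polynomial.div_eq_zero_iff hc).2 (not_le.1 hlt))
        have h1 := degree_add_div hc hle
        have ha0 : a ≠ 0 := by
          rintro rfl
          simp at h0
        rw [degree_eq_natDegree hc, degree_eq_natDegree h0, degree_eq_natDegree ha0] at h1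
        have h2 : c.natDegree + (a / c).natDegree = a.natDegree := by exact_mod_cast h1
        omega
    refine ⟨S2.u (a / c) * wA * M, e, ?_, ?_, fun g => ?_⟩
    · have := EuclideanDomain.div_add_mod a c
      simp only [S2.mul_a, S2.mul_b, S2.u_a, S2.u_b, wA]
      linear_combination (-1 : A) * this + e2 + (a / c) * e1
    · simp only [S2.mul_c, S2.mul_d, S2.u_c, S2.u_d, wA]
      linear_combination e1
    · have h1 := S.edist_u hr g (x := a / c) (by omega)
      have h2 := e3 (g * S.pr (S2.u (a / c)) * S.pr wA)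
      rw [S.mk_mul (Nat.zero_le _) _ (S.pr_mem_H hr wA_mem)] at h2
      have h3 := S.edist_trans h1 h2
      simp only [map_mul, ← mul_assoc]
      exact S.edist_mono h3 (by omega)

lemma pigeon (v w : S.K) : ∃ a c : A, (a ≠ 0 ∨ c ≠ 0) ∧ a.natDegree ≤ r / 2 ∧
    c.natDegree ≤ r / 2 ∧ S.ev a * w = S.ev c * v := by
  classical
  set m := r / 2 + 1 with hm
  let T := degreeLT (ZMod 2) m
  have : Fintype T := Fintype.ofEquiv _ (degreeLTEquiv (ZMod 2) m).toEquiv.symm
  have hT : Fintype.card T = 2 ^ m := by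
    rw [Fintype.card_congr (degreeLTEquiv (ZMod 2) m).toEquiv]
    simp
  obtain ⟨p, q, hpq, he⟩ := Fintype.exists_ne_map_eq_of_card_lt
    (fun p : T × T => S.ev p.1.1 * w - S.ev p.2.1 * v) (by
      rw [Fintype.card_prod, hT, S.card, ← pow_add]
      exact Nat.pow_lt_pow_right (by norm_num) (by omega))
  have hdeg : ∀ s : T, (s : A).natDegree ≤ r / 2 := by
    intro s
    by_cases h0 : (s : A) = 0
    · simp [h0]
    · have := mem_degreeLT.1 s.2
      rw [← natDegree_lt_iff_degree_lt h0] at this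
      omega
  refine ⟨(p.1 - q.1 : T), (p.2 - q.2 : T), ?_, hdeg _, hdeg _, ?_⟩
  · by_contra h
    push Not at h
    apply hpq
    have h1 : p.1 - q.1 = 0 := Subtype.ext h.1
    have h2 : p.2 - q.2 = 0 := Subtype.ext h.2
    exact Prod.ext (sub_eq_zero.1 h1) (sub_eq_zero.1 h2)
  · simp only [Submodule.coe_sub, map_sub]
    linear_combination he

lemma edist_hub (hr : r ≠ 0) (g g' : S2 S.K) :
    S.graph.edist (S.vx 0 g) (S.vx r g') ≤ (2 * r : ℕ) := by
  obtain ⟨a, c, h0, ha, hc, he⟩ := S.pigeon (g⁻¹ * g').a (g⁻¹ * g').c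
  obtain ⟨M, e, e1, e2, e3⟩ := S.euclid hr c a h0 (by omega) (by omega)
  have he0 : S.ev e ≠ 0 := by
    intro h
    have hd : e.natDegree < r := by
      rcases h0 with h0 | h0
      · have := natDegree_le_of_dvd ⟨_, e1⟩ h0
        omega
      · have := natDegree_le_of_dvd ⟨_, e2⟩ h0
        omega
    have := S.eq_zero_of_ev h hd
    rw [this] at e1 e2
    simp only [zero_mul] at e1 e2
    tauto
  have h1 := S.edist_up (g * S.pr M) 0 r (by omega)
  have h2 : S.vx r (g * S.pr M) = S.vx r g' := by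
    rw [S.mk_eq_iff le_rfl, S.H_top, mul_inv_rev, mul_assoc]
    generalize g⁻¹ * g' = k at he
    rw [e1, e2, map_mul, map_mul] at he
    simp only [S2.mul_c, S2.inv_c, S2.inv_d, pr_a, pr_c]
    apply mul_left_cancel₀ he0
    linear_combination he
  rw [zero_add, h2] at h1
  exact S.edist_mono (S.edist_trans (e3 g) h1) (by omega)

lemma edist_le_aux (hr : r ≠ 0) (x y : S.V) (h : S.lvl x ≤ S.lvl y) :
    S.graph.edist x y ≤ (3 * r : ℕ) := by
  obtain ⟨g, hg⟩ := S.exists_rep x
  obtain ⟨g', hg'⟩ := S.exists_rep y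
  have hy := S.lvl_le y
  have h1 := S.edist_up g 0 (S.lvl x) (by omega)
  rw [zero_add, ← hg, SimpleGraph.edist_comm] at h1
  have h2 := S.edist_hub hr g g'
  have h3 := S.edist_up g' (S.lvl y) (r - S.lvl y) (by omega)
  rw [← hg', show S.lvl y + (r - S.lvl y) = r by omega, SimpleGraph.edist_comm] at h3
  exact S.edist_mono (S.edist_trans (S.edist_trans h1 h2) h3) (by omega)

theorem edist_le (hr : r ≠ 0) (x y : S.V) : S.graph.edist x y ≤ (3 * r : ℕ) := by
  rcases le_total (S.lvl x) (S.lvl y) with h | h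
  · exact S.edist_le_aux hr x y h
  · rw [SimpleGraph.edist_comm]
    exact S.edist_le_aux hr y x h

/-- A diagonal matrix. -/
noncomputable def dg (t : S.K) (ht : t ≠ 0) : S2 S.K := ⟨t, 0, 0, t⁻¹, by simp [ht]⟩

theorem three_nbrs (hr : 2 ≤ r) (x : S.V) : ∃ y₁ y₂ y₃ : S.V, S.graph.Adj x y₁ ∧
    S.graph.Adj x y₂ ∧ S.graph.Adj x y₃ ∧ y₁ ≠ y₂ ∧ y₁ ≠ y₃ ∧ y₂ ≠ y₃ := by
  obtain ⟨g, hg⟩ := S.exists_rep x
  have hle := S.lvl_le x
  generalize S.lvl x = i at hg hle
  subst hg
  have hr0 : r ≠ 0 := by omega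
  rcases i with _ | j
  · have key : ∀ h ∈ Gam 0, S.graph.Adj (S.vx 0 g) (S.vx 1 (g * S.pr h)) := by
      intro h hh
      rw [← S.mk_mul (Nat.zero_le _) g (S.pr_mem_H hr0 hh)]
      exact S.adj_mk (by omega) _
    have ne : ∀ h h' : S2 A, (h⁻¹ * h').c = 1 →
        S.vx 1 (g * S.pr h) ≠ S.vx 1 (g * S.pr h') := by
      intro h h' hc he
      rw [S.mk_eq_iff (by omega)] at he
      have := S.H_c one_ne_zero he
      rw [mul_inv_rev, mul_assoc, inv_mul_cancel_left, ← map_inv, ← map_mul, pr_c, hc] at this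
      simp at this
    refine ⟨_, _, _, key 1 (one_mem _), key wA wA_mem, key lA lA_mem, ne _ _ ?_, ne _ _ ?_,
      ne _ _ ?_⟩
    · simp [wA]
    · simp [lA]
    · simp [wA, lA, CharTwo.neg_eq]
  · have key : ∀ h ∈ S.H (j + 1), S.graph.Adj (S.vx (j + 1) g) (S.vx j (g * h)) := by
      intro h hh
      rw [← S.mk_mul hle g hh]
      exact (S.adj_mk (by omega) _).symm
    by_cases htop : j + 1 = r
    · have hX : ∀ p : A, p ≠ 0 → p.natDegree ≤ 1 → S.ev p ≠ 0 := by
        intro p hp hd h
        exact hp (S.eq_zero_of_ev h (by omega))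
      have t0 : S.ev X ≠ 0 := hX X X_ne_zero (by simp)
      have t1 : S.ev (X - C 1) ≠ 0 := hX _ (X_sub_C_ne_zero 1) (by rw [natDegree_X_sub_C])
      have t2 : S.ev X - 1 ≠ 0 := by simpa using t1
      have mem : ∀ (t : S.K) (ht : t ≠ 0), S.dg t ht ∈ S.H (j + 1) := by
        intro t ht
        rw [htop, S.H_top]
        rfl
      have ne : ∀ (s t : S.K) (hs : s ≠ 0) (ht : t ≠ 0), s ≠ t →
          S.vx j (g * S.dg s hs) ≠ S.vx j (g * S.dg t ht) := by
        intro s t hs ht hst he
        rw [S.mk_eq_iff (by omega), mul_inv_rev, mul_assoc, inv_mul_cancel_left] at he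
        obtain ⟨h, hh, e⟩ := S.H_lt (by omega) he
        rw [Gam_pos (by omega)] at hh
        have := congrArg S2.a e
        simp only [pr_a, hh.1, map_one, S2.mul_a, S2.inv_a, S2.inv_b, dg, mul_zero,
          add_zero] at this
        apply hst
        field_simp at this
        exact this
      have c2 : (1 : S.K) + 1 = 0 := by
        have : S.ev (1 + 1) = 0 := by
          rw [CharTwo.add_self_eq_zero, map_zero]
        simpa using this
      refine ⟨_, _, _, key _ (mem 1 one_ne_zero), key _ (mem _ t0), key _ (mem _ t2),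
        ne _ _ _ _ ?_, ne _ _ _ _ ?_, ne _ _ _ _ ?_⟩
      · intro h
        exact t2 (by rw [← h, sub_self])
      · intro h
        exact t0 (by linear_combination c2 - h)
      · intro h
        exact one_ne_zero (by linear_combination h : (1 : S.K) = 0)
    · have hu : S.pr (S2.u (X ^ (j + 1))) ∈ S.H (j + 1) :=
        S.pr_mem_H hr0 (U_le_Gam _ (u_mem_U (by simp)))
      have lv : ∀ g₁ g₂ : S2 S.K, S.vx (j + 1 + 1) g₁ ≠ S.vx j g₂ := by
        intro g₁ g₂ he
        have := congrArg S.lvl he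
        rw [S.lvl_mk (by omega), S.lvl_mk (by omega)] at this
        omega
      refine ⟨_, _, _, S.adj_mk (by omega) g, key 1 (one_mem _), key _ hu, lv _ _, lv _ _, ?_⟩
      intro he
      rw [S.mk_eq_iff (by omega), mul_one, inv_mul_cancel_left] at he
      obtain ⟨h, hh, e⟩ := S.H_lt (by omega) he
      have hb : h.b.natDegree ≤ j := by
        by_cases hj : j = 0
        · subst hj
          rw [Gam_zero] at hh
          exact hh.2.1.le
        · rw [Gam_pos hj] at hh
          exact hh.2.2.2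
      have e1 := congrArg S2.b e
      simp only [pr_b, S2.u_b] at e1
      have e2 : (X ^ (j + 1) - h.b).natDegree = j + 1 := by
        rw [natDegree_sub_eq_left_of_natDegree_lt (by simp; omega)]
        simp
      have e3 := S.eq_zero_of_ev (p := X ^ (j + 1) - h.b) (by rw [map_sub, e1, sub_self])
        (by omega)
      rw [e3] at e2
      simp at e2

end Setup

lemma exists_setup {r : ℕ} (hr : r ≠ 0) : Nonempty (Setup r) := by
  obtain ⟨α, hα⟩ := Field.exists_primitive_element (ZMod 2) (GaloisField 2 r)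
  have hint : IsIntegral (ZMod 2) α := IsIntegral.of_finite _ _
  have : Fintype (GaloisField 2 r) := Fintype.ofFinite _
  refine ⟨{ K := GaloisField 2 r
            ev := (aeval α : A →ₐ[ZMod 2] GaloisField 2 r).toRingHom
            f := minpoly (ZMod 2) α
            hf := ?_
            hf0 := minpoly.ne_zero hint
            ker := fun p => minpoly.dvd_iff.symm
            card := ?_ }⟩
  · rw [(Field.primitive_element_iff_minpoly_natDegree_eq _ _).1 hα, GaloisField.finrank 2 hr]
  · rw [← Nat.card_eq_fintype_card, GaloisField.card 2 r hr]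

/-- For every `r ≥ 2` there is a finite connected graph with all degrees at least three, girth at
least `4 r` and diameter at most `3 r`. -/
theorem main {r : ℕ} (hr : 2 ≤ r) :
    ∃ (V : Type) (_ : Fintype V) (G : SimpleGraph V) (_ : DecidableRel G.Adj),
      G.Connected ∧ (∀ v : V, 3 ≤ G.degree v) ∧ 4 * r ≤ G.girth ∧ G.diam ≤ 3 * r := by
  classical
  have hr0 : r ≠ 0 := by omega
  obtain ⟨S⟩ := exists_setup hr0
  have : Fintype S.V := Fintype.ofFinite _
  have : Nonempty S.V := ⟨S.vx 0 1⟩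
  have hed : S.graph.ediam ≤ (3 * r : ℕ) := SimpleGraph.ediam_le_of_edist_le (S.edist_le hr0)
  have hne : S.graph.ediam ≠ ⊤ := ne_top_of_le_ne_top (ENat.natCast_ne_top _) hed
  have hconn : S.graph.Connected := SimpleGraph.connected_of_ediam_ne_top hne
  have hdeg : ∀ v, 3 ≤ S.graph.degree v := by
    intro v
    obtain ⟨y₁, y₂, y₃, a1, a2, a3, n1, n2, n3⟩ := S.three_nbrs hr v
    rw [← SimpleGraph.card_neighborFinset_eq_degree]
    apply Finset.two_lt_card.2
    exact ⟨y₁, by simpa using a1, y₂, by simpa using a2, y₃, by simpa using a3, n1, n2, n3⟩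
  refine ⟨S.V, inferInstance, S.graph, inferInstance, hconn, hdeg, ?_, ?_⟩
  · have hna : ¬ S.graph.IsAcyclic := by
      intro hac
      obtain ⟨y₁, y₂, _, _, _, _, n1, _, _⟩ := S.three_nbrs hr (S.vx 0 1)
      have : Nontrivial S.V := ⟨y₁, y₂, n1⟩
      obtain ⟨v, hv⟩ := SimpleGraph.IsTree.exists_vert_degree_one_of_nontrivial ⟨hconn, hac⟩
      have := hdeg v
      omega
    obtain ⟨v, p, hp, he⟩ := SimpleGraph.exists_girth_eq_length.2 hna
    rw [he]
    exact S.cycle_long hr0 p hp
  · exact ENat.toNat_le_of_le_natCast hed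

end Pool.Agent.MP_3838e6_co
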